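import Pool.Agent.MNT.StmtsG

/-!
# Squad MNT, row TH4: bounded orders, curve not split
-/

set_option autoImplicit false

namespace Pool.Agent.MNT.H86

open Polynomial NumberField Pool.Agent.MNT

theorem th4_prod {M : Type} [CommMonoid M] (g : ℕ) (F : PP g → M) :
    ∏ p ∈ RR g, F p = ∏ i : Fin (2 * g + 1), F (Sum.inl i) := by
  unfold RR
  rw [Finset.prod_filter, Fintype.prod_sum_type]
  simp

theorem th4 (th3 : Th3Stmt) (bch : BchStmt) (ext1 : UBT.Ext1Stmt) : Th4Stmt := by
  classical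
  intro g hg d
  obtain ⟨B, hB⟩ := th3 g hg (d * (2 * g + 1).factorial)
  refine ⟨B, ?_⟩
  intro K _ _ hKd f hfd hsq x y hx hxy hy hN i
  have hf0 : f ≠ 0 := hsq.ne_zero
  have hodd : Odd f.natDegree := by rw [hfd]; exact ⟨g, rfl⟩
  obtain ⟨E, _, _, _, hspl, hfr⟩ := ext1 K f hf0
  rw [hfd] at hfr
  obtain ⟨φ, hφ⟩ : ∃ φ : K →+* E, φ = algebraMap K E := ⟨_, rfl⟩
  have hφi : Function.Injective φ := φ.injective
  rw [← hφ] at hspl
  have hEd : Module.finrank ℚ E ≤ d * (2 * g + 1).factorial := by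
    rw [← Module.finrank_mul_finrank ℚ K E]
    exact Nat.mul_le_mul hKd hfr
  have hsep : (f.map φ).Separable := (PerfectField.separable_iff_squarefree.2 hsq).map
  have hnod : (f.map φ).roots.Nodup := nodup_roots hsep
  have hf0' : f.map φ ≠ 0 := (Polynomial.map_ne_zero_iff hφi).2 hf0
  have hdeg : (f.map φ).natDegree = 2 * g + 1 := by rw [natDegree_map, hfd]
  have hcard : (f.map φ).roots.toFinset.card = 2 * g + 1 := by
    rw [Multiset.toFinset_card_of_nodup hnod, ← hdeg]
    exact hspl.natDegree_eq_card_roots.symm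
  obtain ⟨θ, hθ⟩ : ∃ θ : Fin (2 * g + 1) → E,
      θ = fun j => (((f.map φ).roots.toFinset.equivFinOfCardEq hcard).symm j : E) := ⟨_, rfl⟩
  have hθi : Function.Injective θ := by
    rw [hθ]
    exact Subtype.val_injective.comp (Equiv.injective _)
  have hθr : ∀ j, (f.map φ).eval (θ j) = 0 := by
    intro j
    have h1 : θ j ∈ (f.map φ).roots.toFinset := by
      rw [hθ]
      exact Subtype.property _
    rw [Multiset.mem_toFinset, mem_roots hf0'] at h1
    exact h1
  obtain ⟨z, hz⟩ : ∃ z : PP g → E, z = Sum.elim θ (fun j => φ (x j)) := ⟨_, rfl⟩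
  obtain ⟨y', hy'⟩ : ∃ y' : PP g → E, y' = Sum.elim (fun _ => 0) (fun j => φ (y j)) := ⟨_, rfl⟩
  have hFF : f.map φ = FF (f.map φ).leadingCoeff (RR g) z := by
    unfold FF
    rw [th4_prod g (fun p => X - C (z p))]
    have h1 : ∏ j : Fin (2 * g + 1), (X - C (z (Sum.inl j))) =
        ((f.map φ).roots.map fun a => X - C a).prod := by
      have h2 : (f.map φ).roots = (f.map φ).roots.toFinset.val := by
        rw [Multiset.toFinset_val, hnod.dedup]
      have h3 : ((f.map φ).roots.map fun a => X - C a).prod =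
          ∏ a ∈ (f.map φ).roots.toFinset, (X - C a) := by
        conv_lhs => rw [h2]
        rfl
      rw [h3, ← Finset.prod_coe_sort ((f.map φ).roots.toFinset) (fun a => X - C a),
        ← Equiv.prod_comp ((f.map φ).roots.toFinset.equivFinOfCardEq hcard).symm]
      apply Finset.prod_congr rfl
      intro j _
      rw [hz, Sum.elim_inl, hθ]
    rw [h1]
    exact hspl.eq_prod_roots
  have hev : ∀ j, (f.map φ).eval (φ (x j)) = φ (y j) ^ 2 := by
    intro j
    rw [eval_map, eval₂_hom, ← hxy j, map_pow]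
  have hout : ∀ p, p ∉ RR g → ∃ j, p = Sum.inr j := by
    intro p hp
    rcases p with j | j
    · exact absurd (show (Sum.inl j : PP g) ∈ RR g by unfold RR; simp) hp
    · exact ⟨j, rfl⟩
  have hconf : Conf g z (f.map φ).leadingCoeff y' := by
    refine ⟨?_, leadingCoeff_ne_zero.2 hf0', ?_, ?_⟩
    · rw [hz]
      refine Function.Injective.sumElim hθi (hφi.comp hx) ?_
      intro a b h
      have h1 := hθr a
      rw [h, hev] at h1
      exact hy b (hφi (by rw [pow_eq_zero_iff two_ne_zero |>.1 h1, map_zero]))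
    · intro p hp
      obtain ⟨j, rfl⟩ := hout p hp
      rw [← hFF, hy', hz, Sum.elim_inr, Sum.elim_inr, hev]
    · intro p hp
      obtain ⟨j, rfl⟩ := hout p hp
      obtain ⟨N, hNj⟩ := hN j
      refine ⟨N, ?_⟩
      have h1 := (bch K E φ f (x j) (y j) N hodd).1 hNj
      rw [← hFF, hy', hz]
      exact h1
  obtain ⟨N, hNB, hNt⟩ := hB E hEd z _ y' hconf (Sum.inr i) (by
    unfold RR
    simp)
  refine ⟨N, hNB, ?_⟩
  rw [← hFF, hy', hz] at hNt
  exact (bch K E φ f (x i) (y i) N hodd).2 hNt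

end Pool.Agent.MNT.H86
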