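import Pool.Agent.MNT.StmtsT

/-!
# Squad MNT, row NME: the numerical inequality for even clusters
-/

set_option autoImplicit false

namespace Pool.Agent.MNT.H86

open Pool.Agent.MNT

theorem nme_aux (k B γ y y₀ c α : ℝ) (hB : 0 < B) (hP : 0 ≤ B * (k - (γ + 1)) + k ^ 2)
    (hy : y₀ ≤ y) (hα : α * (1 - α) = y)
    (h : k ^ 2 + 3 * γ ^ 2 + (3 * k * γ - 3 * γ ^ 2) * c <
      4 * y₀ * (B * (k - (γ + 1)) + k ^ 2)) :
    0 < (k - (γ + 1)) * (α * (1 - α)) -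
      (k ^ 2 * (1 - 2 * α) ^ 2 + (3 * γ) ^ 2 / 3 + (k * (3 * γ) - (3 * γ) ^ 2 / 3) * c) /
        (4 * B) := by
  have e : (1 - 2 * α) ^ 2 = 1 - 4 * y := by
    rw [← hα]
    ring
  have h3 := mul_le_mul_of_nonneg_left hy hP
  rw [sub_pos, div_lt_iff₀ (by positivity), e, hα]
  nlinarith [h, h3]

theorem nme : NmeStmt := by
  intro g hg
  have hγ : (2 : ℝ) ≤ (g : ℝ) := by exact_mod_cast hg
  obtain ⟨γ, hγd⟩ : ∃ γ : ℝ, γ = (g : ℝ) := ⟨_, rfl⟩
  rw [← hγd] at hγ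
  have hs : (0 : ℝ) < 4 * γ + 7 := by linarith
  have hk : kc g = (10 * γ ^ 2 + 21 * γ - 1) / (4 * γ + 7) := by
    unfold kc
    rw [← hγd]
  have hB : Bc g = (8 * γ ^ 3 + 16 * γ ^ 2 + 4 * γ + 8) / (4 * γ + 7) := by
    unfold Bc
    rw [hk, ← hγd]
    field_simp
    ring
  have hP : Bc g * (kc g - (γ + 1)) + kc g ^ 2 =
      ((8 * γ ^ 3 + 16 * γ ^ 2 + 4 * γ + 8) * (6 * γ ^ 2 + 10 * γ - 8) +
        (10 * γ ^ 2 + 21 * γ - 1) ^ 2) / (4 * γ + 7) ^ 2 := by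
    rw [hk, hB]
    field_simp
    ring
  have hB0 : 0 < Bc g := by
    rw [hB]
    positivity
  have hP0 : 0 ≤ Bc g * (kc g - (γ + 1)) + kc g ^ 2 := by
    rw [hP]
    apply div_nonneg _ (by positivity)
    have h1 : 0 ≤ 6 * γ ^ 2 + 10 * γ - 8 := by nlinarith
    positivity
  have hpos : ∀ a : ℕ, 2 ≤ a → a ≤ 2 * g → Even a →
      0 < (kc g - (g + 1)) * ((a : ℝ) / (2 * g + 2) * (1 - a / (2 * g + 2))) -
      (kc g ^ 2 * (1 - 2 * ((a : ℝ) / (2 * g + 2))) ^ 2 + (3 * (g : ℝ)) ^ 2 / 3 +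
        (kc g * (3 * g) - (3 * (g : ℝ)) ^ 2 / 3) * ee g a) / (4 * Bc g) := by
    intro a ha1 ha2 hae
    have hnodd : ¬ Odd a := Nat.not_odd_iff_even.2 hae
    rw [← hγd]
    have hy : (a : ℝ) / (2 * γ + 2) * (1 - a / (2 * γ + 2)) =
        (a : ℝ) * (2 * γ + 2 - a) / (4 * (γ + 1) ^ 2) := by
      have h1 : (2 * γ + 2 : ℝ) ≠ 0 := by positivity
      field_simp
      ring
    have hg1 : (0 : ℝ) < γ + 1 := by linarith
    by_cases hc : a = 2 ∨ a = 2 * g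
    · have hee : ee g a = 1 / 4 := by
        unfold ee
        rw [if_neg hnodd, if_pos hc]
      rw [hee]
      obtain ⟨t, ht⟩ : ∃ t : ℝ, t = γ - 2 := ⟨_, rfl⟩
      have hγt : γ = t + 2 := by rw [ht]; ring
      have ht0 : 0 ≤ t := by rw [ht]; linarith
      refine nme_aux _ _ _ _ (γ / (γ + 1) ^ 2) _ _ hB0 hP0 ?_ hy ?_
      · rw [div_le_div_iff₀ (by positivity) (by positivity)]
        have h1 : (a : ℝ) * (2 * γ + 2 - a) = 4 * γ := by
          rcases hc with h | h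
          · rw [h]
            push_cast
            ring
          · rw [h, hγd]
            push_cast
            ring
        rw [h1]
        apply le_of_eq
        ring
      · rw [← sub_pos]
        have h2 : 4 * (γ / (γ + 1) ^ 2) * (Bc g * (kc g - (γ + 1)) + kc g ^ 2) -
            (kc g ^ 2 + 3 * γ ^ 2 + (3 * kc g * γ - 3 * γ ^ 2) * (1 / 4)) =
            (104 * t ^ 6 + 1690 * t ^ 5 + 10790 * t ^ 4 + 33891 * t ^ 3 + 52542 * t ^ 2 +
              32697 * t + 1134) / (4 * (4 * γ + 7) ^ 2 * (γ + 1) ^ 2) := by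
          rw [hP, hk, hγt]
          have h3 : 4 * (t + 2) + 7 ≠ 0 := by positivity
          have h4 : t + 2 + 1 ≠ 0 := by positivity
          field_simp
          ring
        rw [h2]
        positivity
    · have hee : ee g a = 1 := by
        unfold ee
        rw [if_neg hnodd, if_neg hc]
      rw [hee]
      have hc1 : a ≠ 2 := fun h => hc (Or.inl h)
      have hc2 : a ≠ 2 * g := fun h => hc (Or.inr h)
      obtain ⟨b, hb⟩ := hae
      have ha4 : 4 ≤ a := by omega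
      have ha5 : a + 2 ≤ 2 * g := by omega
      have hg3 : 3 ≤ g := by omega
      have hγ3 : (3 : ℝ) ≤ γ := by rw [hγd]; exact_mod_cast hg3
      have ha4' : (4 : ℝ) ≤ (a : ℝ) := by exact_mod_cast ha4
      have ha5' : (a : ℝ) + 2 ≤ 2 * γ := by rw [hγd]; exact_mod_cast ha5
      obtain ⟨t, ht⟩ : ∃ t : ℝ, t = γ - 3 := ⟨_, rfl⟩
      have hγt : γ = t + 3 := by rw [ht]; ring
      have ht0 : 0 ≤ t := by rw [ht]; linarith
      refine nme_aux _ _ _ _ ((2 * γ - 2) / (γ + 1) ^ 2) _ _ hB0 hP0 ?_ hy ?_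
      · rw [div_le_div_iff₀ (by positivity) (by positivity)]
        have h1 : 0 ≤ ((a : ℝ) - 4) * (2 * γ - 2 - a) :=
          mul_nonneg (by linarith) (by linarith)
        have h5 : 4 * (2 * γ - 2) ≤ (a : ℝ) * (2 * γ + 2 - a) := by nlinarith
        have h6 := mul_le_mul_of_nonneg_right h5 (sq_nonneg (γ + 1))
        calc (2 * γ - 2) * (4 * (γ + 1) ^ 2) = 4 * (2 * γ - 2) * (γ + 1) ^ 2 := by ring
          _ ≤ (a : ℝ) * (2 * γ + 2 - a) * (γ + 1) ^ 2 := h6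
      · rw [← sub_pos]
        have h2 : 4 * ((2 * γ - 2) / (γ + 1) ^ 2) * (Bc g * (kc g - (γ + 1)) + kc g ^ 2) -
            (kc g ^ 2 + 3 * γ ^ 2 + (3 * kc g * γ - 3 * γ ^ 2) * 1) =
            (164 * t ^ 6 + 3454 * t ^ 5 + 28948 * t ^ 4 + 121285 * t ^ 3 + 257968 * t ^ 2 +
              239248 * t + 46208) / ((4 * γ + 7) ^ 2 * (γ + 1) ^ 2) := by
          rw [hP, hk, hγt]
          have h3 : 4 * (t + 3) + 7 ≠ 0 := by positivity
          have h4 : t + 3 + 1 ≠ 0 := by positivity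
          field_simp
          ring
        rw [h2]
        positivity
  obtain ⟨a₀, ha₀, hmin⟩ := ((Finset.range (2 * g + 1)).filter
    (fun a => 2 ≤ a ∧ Even a)).exists_min_image
    (fun a : ℕ => (kc g - (g + 1)) * ((a : ℝ) / (2 * g + 2) * (1 - a / (2 * g + 2))) -
      (kc g ^ 2 * (1 - 2 * ((a : ℝ) / (2 * g + 2))) ^ 2 + (3 * (g : ℝ)) ^ 2 / 3 +
        (kc g * (3 * g) - (3 * (g : ℝ)) ^ 2 / 3) * ee g a) / (4 * Bc g))
    ⟨2, Finset.mem_filter.2 ⟨Finset.mem_range.2 (by omega), le_refl 2, even_two⟩⟩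
  obtain ⟨h1, h2, h3⟩ := Finset.mem_filter.1 ha₀
  refine ⟨_, hpos a₀ h2 (by have := Finset.mem_range.1 h1; omega) h3, fun a ha1 ha2 ha3 => ?_⟩
  exact hmin a (Finset.mem_filter.2 ⟨Finset.mem_range.2 (by omega), ha1, ha3⟩)

end Pool.Agent.MNT.H86
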